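import Pool.Agent.helper36.PT.Spec

namespace Pool.Agent.PT

open Finset Pool.Agent.helper71.AA

theorem PSM_step (a : ℕ → ℂ) (f : ℕ → ℝ) (u v : ℕ) (S : ℝ)
    (hf : ∀ n, u ≤ n → n + 1 < v → f (n + 1) ≤ f n)
    (hS : ∀ v', u ≤ v' → v' ≤ v → ‖∑ n ∈ Ico u v', a n‖ ≤ S) (k : ℕ) :
    u + 1 + k ≤ v → ‖∑ n ∈ Ico u (u + 1 + k), (f n : ℂ) * a n - (f (u + k) : ℂ) * ∑ n ∈ Ico u (u + 1 + k), a n‖
      ≤ (f u - f (u + k)) * S := by
  induction k with
  | zero =>
    intro _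
    simp
  | succ k ih =>
    intro hk
    have h1 := ih (by omega)
    have h2 : f (u + k + 1) ≤ f (u + k) := hf (u + k) (by omega) (by omega)
    have h3 : ‖∑ n ∈ Ico u (u + 1 + k), a n‖ ≤ S := hS (u + 1 + k) (by omega) (by omega)
    have e1 : u + 1 + (k + 1) = (u + 1 + k) + 1 := by omega
    have e2 : u + (k + 1) = u + 1 + k := by omega
    have e3 : u + k + 1 = u + 1 + k := by omega
    rw [e3] at h2
    rw [e1, e2, Finset.sum_Ico_succ_top (by omega), Finset.sum_Ico_succ_top (by omega)]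
    have h4 : ∑ n ∈ Ico u (u + 1 + k), (f n : ℂ) * a n + (f (u + 1 + k) : ℂ) * a (u + 1 + k)
        - (f (u + 1 + k) : ℂ) * (∑ n ∈ Ico u (u + 1 + k), a n + a (u + 1 + k))
        = (∑ n ∈ Ico u (u + 1 + k), (f n : ℂ) * a n - (f (u + k) : ℂ) * ∑ n ∈ Ico u (u + 1 + k), a n)
          + ((f (u + k) - f (u + 1 + k) : ℝ) : ℂ) * ∑ n ∈ Ico u (u + 1 + k), a n := by
      push_cast; ring
    rw [h4]
    refine (norm_add_le _ _).trans ?_
    rw [norm_mul, Complex.norm_real, Real.norm_eq_abs, abs_of_nonneg (by linarith)]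
    have h5 : (f (u + k) - f (u + 1 + k)) * ‖∑ n ∈ Ico u (u + 1 + k), a n‖
        ≤ (f (u + k) - f (u + 1 + k)) * S := mul_le_mul_of_nonneg_left h3 (by linarith)
    nlinarith [h1, h5]

theorem PSM : PSM_stmt := by
  intro a f u v F S hF huv hfF hf hS
  have hS0 : 0 ≤ S := by
    have := hS u le_rfl huv
    rw [Ico_self, sum_empty, norm_zero] at this
    exact this
  rcases Nat.eq_or_lt_of_le huv with h | h
  · subst h
    rw [Ico_self, sum_empty, norm_zero]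
    exact mul_nonneg hF hS0
  · obtain ⟨k, hk⟩ : ∃ k, v = u + 1 + k := ⟨v - (u + 1), by omega⟩
    have h1 := PSM_step a f u v S hf hS k (by omega)
    rw [← hk] at h1
    have h2 := hS v huv le_rfl
    have h3 := hfF (u + k) (mem_Ico.2 ⟨by omega, by omega⟩)
    have h4 := hfF u (mem_Ico.2 ⟨le_rfl, h⟩)
    have h5 : ∑ n ∈ Ico u v, (f n : ℂ) * a n
        = (∑ n ∈ Ico u v, (f n : ℂ) * a n - (f (u + k) : ℂ) * ∑ n ∈ Ico u v, a n)
          + ((f (u + k) : ℝ) : ℂ) * ∑ n ∈ Ico u v, a n := by ring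
    rw [h5]
    refine (norm_add_le _ _).trans ?_
    rw [norm_mul, Complex.norm_real, Real.norm_eq_abs, abs_of_nonneg h3.1]
    have h6 : f (u + k) * ‖∑ n ∈ Ico u v, a n‖ ≤ f (u + k) * S := mul_le_mul_of_nonneg_left h2 h3.1
    have h7 : f u * S ≤ F * S := mul_le_mul_of_nonneg_right h4.2 hS0
    nlinarith [h1, h6, h7]

end Pool.Agent.PT
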